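import Pool.Agent.H25.HK.Targets

set_option autoImplicit false

open NumberField NumberField.InfinitePlace NumberField.Units
  NumberField.Units.dirichletUnitTheorem MeasureTheory Set Filter Complex
open scoped nonZeroDivisors ENNReal

namespace Pool.Agent.H41.HK

open Pool.Agent.H25.HK

/-- (G1) the one-dimensional integral. -/
theorem g1 : T_G1 := by
  intro e a s he ha hs
  set r : ℝ := Real.pi * e * a ^ 2 with hr
  have hr0 : 0 < r := by positivity
  set A : ℂ := e * s / 2 with hAdef
  have hAre : A.re = e * s.re / 2 := by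
    rw [hAdef]
    simp
  have hA : 0 < A.re := by
    rw [hAre]
    positivity
  let F : ℝ → ℂ := fun x => (x : ℂ) ^ (A - 1) * cexp (-(r * x))
  have hF : IntegrableOn F (Ioi 0) := by
    have h1 : IntegrableOn (fun x : ℝ => x ^ (A.re - 1) * Real.exp (-r * x ^ (1 : ℝ))) (Ioi 0) :=
      integrableOn_rpow_mul_exp_neg_mul_rpow (by linarith) one_pos hr0
    refine Integrable.mono' h1 ?_ ?_
    · apply ContinuousOn.aestronglyMeasurable _ measurableSet_Ioi
      apply ContinuousOn.mul
      · intro x hx
        apply ContinuousAt.continuousWithinAt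
        apply ContinuousAt.cpow
        · exact Complex.continuous_ofReal.continuousAt
        · exact continuousAt_const
        · left
          simpa using hx
      · fun_prop
    · rw [ae_restrict_iff' measurableSet_Ioi]
      refine Eventually.of_forall fun x hx => ?_
      have hx0 : 0 < x := hx
      change ‖(x : ℂ) ^ (A - 1) * cexp (-(r * x))‖ ≤ _
      rw [norm_mul, Complex.norm_cpow_eq_rpow_re_of_pos hx0, Complex.norm_exp, Real.rpow_one]
      apply le_of_eq
      congr 1
      congr 1
      simp
  have himg : Real.exp '' univ = Ioi 0 := by rw [image_univ, Real.range_exp]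
  have hcv : ∀ y : ℝ, |Real.exp y| • F (Real.exp y) =
      (Real.exp (-Real.pi * e * Real.exp y * a ^ 2) : ℂ) * cexp (s * e * y / 2) := by
    intro y
    change |Real.exp y| • (((Real.exp y : ℝ) : ℂ) ^ (A - 1) * cexp (-(r * (Real.exp y : ℝ)))) = _
    rw [abs_of_pos (Real.exp_pos y), Complex.real_smul,
      Complex.cpow_def_of_ne_zero (by
        rw [Complex.ofReal_ne_zero]; exact (Real.exp_pos y).ne'),
      ← Complex.ofReal_log (Real.exp_pos y).le, Real.log_exp]
    have h1 : cexp (-(r * (Real.exp y : ℝ))) =
        (Real.exp (-Real.pi * e * Real.exp y * a ^ 2) : ℂ) := by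
      rw [Complex.ofReal_exp (-Real.pi * e * Real.exp y * a ^ 2)]
      congr 1
      rw [hr]
      push_cast
      ring
    rw [h1]
    have h2 : ((Real.exp y : ℝ) : ℂ) * cexp (y * (A - 1)) = cexp (s * e * y / 2) := by
      rw [Complex.ofReal_exp, ← Complex.exp_add]
      congr 1
      rw [hAdef]
      ring
    rw [← h2]
    ring
  constructor
  · have h1 := (integrableOn_image_iff_integrableOn_abs_deriv_smul MeasurableSet.univ
      (fun x _ => (Real.hasDerivAt_exp x).hasDerivWithinAt) Real.exp_injective.injOn F).mp
      (himg ▸ hF)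
    rw [integrableOn_univ] at h1
    simpa only [hcv] using h1
  · have h1 := integral_image_eq_integral_abs_deriv_smul MeasurableSet.univ
      (fun x _ => (Real.hasDerivAt_exp x).hasDerivWithinAt) Real.exp_injective.injOn F
    rw [himg, setIntegral_univ] at h1
    simp only [hcv] at h1
    rw [← h1]
    have h2 : ∫ x in Ioi (0 : ℝ), F x = (1 / r) ^ A * Gamma A :=
      Complex.integral_cpow_mul_exp_neg_mul_Ioi hA hr0
    rw [h2, one_div, Complex.inv_cpow _ _ (by
      rw [Complex.arg_ofReal_of_nonneg hr0.le]
      exact Real.pi_pos.ne), ← Complex.cpow_neg]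

end Pool.Agent.H41.HK
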