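import Pool.Agent.H25.HK.Targets

set_option autoImplicit false

open NumberField NumberField.InfinitePlace NumberField.Units
  NumberField.Units.dirichletUnitTheorem MeasureTheory Set Filter Complex
open scoped nonZeroDivisors ENNReal

namespace Pool.Agent.H41.HK

open Pool.Agent.H25.HK

theorem prod_cpow_of_pos {ι : Type} (s : Finset ι) (f : ι → ℝ) (hf : ∀ i ∈ s, 0 ≤ f i) (w : ℂ) :
    (((∏ i ∈ s, f i : ℝ)) : ℂ) ^ w = ∏ i ∈ s, ((f i : ℝ) : ℂ) ^ w := by
  classical
  induction s using Finset.induction_on with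
  | empty => simp
  | insert a s ha ih =>
    rw [Finset.prod_insert ha, Finset.prod_insert ha, Complex.ofReal_mul,
      Complex.mul_cpow_ofReal_nonneg (hf a (Finset.mem_insert_self a s))
        (Finset.prod_nonneg fun i hi => hf i (Finset.mem_insert_of_mem hi)),
      ih fun i hi => hf i (Finset.mem_insert_of_mem hi)]

/-- the local factor -/
theorem local_factor (K : Type) [Field K] [NumberField K] (v : InfinitePlace K) (a : ℝ)
    (ha : 0 < a) (s : ℂ) :
    ((Real.pi * v.mult * a ^ 2 : ℝ) : ℂ) ^ (-((v.mult : ℝ) * s / 2)) *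
        Complex.Gamma ((v.mult : ℝ) * s / 2) =
      (open scoped Classical in if IsReal v then Gammaℝ s else 2⁻¹ * Gammaℂ s) *
        ((a ^ v.mult : ℝ) : ℂ) ^ (-s) := by
  have hpi : (0 : ℝ) ≤ Real.pi := Real.pi_pos.le
  split_ifs with hv
  · rw [hv.mult_eq_one]
    simp only [Nat.cast_one, mul_one, pow_one, Complex.ofReal_one, one_mul]
    rw [Complex.ofReal_mul, Complex.mul_cpow_ofReal_nonneg hpi (by positivity), Gammaℝ_def]
    have h1 : ((a ^ 2 : ℝ) : ℂ) ^ (-(s / 2)) = ((a : ℝ) : ℂ) ^ (-s) := by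
      rw [pow_two, Complex.ofReal_mul, Complex.mul_cpow_ofReal_nonneg ha.le ha.le,
        ← Complex.cpow_add _ _ (Complex.ofReal_ne_zero.mpr ha.ne')]
      congr 1
      ring
    rw [h1, neg_div]
    ring
  · have hv' : IsComplex v := not_isReal_iff_isComplex.mp hv
    rw [hv'.mult_eq_two]
    have h0 : (((2 : ℕ) : ℝ) : ℂ) * s / 2 = s := by
      push_cast
      ring
    rw [h0, Complex.ofReal_mul, Complex.mul_cpow_ofReal_nonneg (by positivity) (by positivity),
      Gammaℂ_def]
    have h1 : (((Real.pi * ((2 : ℕ) : ℝ)) : ℝ) : ℂ) = 2 * (Real.pi : ℂ) := by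
      push_cast
      ring
    rw [h1]
    ring

open scoped Classical in
/-- (GI) the Gamma integral. -/
theorem gi (h1 : T_JA) (h2 : T_G1) (h3 : T_YC) : T_GI := by
  intro K _ _ x s hx hs
  obtain ⟨hy, -⟩ := h3 K
  let f : InfinitePlace K → ℝ → ℂ := fun v y =>
    (Real.exp (-Real.pi * v.mult * Real.exp y * (v x) ^ 2) : ℂ) * cexp (s * (v.mult : ℝ) * y / 2)
  let g : (InfinitePlace K → ℝ) → ℂ := fun y => ∏ v, f v (y v)
  have hvx : ∀ v : InfinitePlace K, 0 < v x := fun v => InfinitePlace.pos_iff.mpr hx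
  have hm : ∀ v : InfinitePlace K, 0 < (v.mult : ℝ) := fun v => by
    have := v.mult_pos
    positivity
  have hgi : Integrable g := by
    apply Integrable.fintype_prod
    intro v
    exact (h2 (v.mult : ℝ) (v x) s (hm v) (hvx v) hs).1
  have hgv : ∫ y, g y = gK K s * ((2 : ℂ) ^ nrComplexPlaces K)⁻¹ *
      (((|Algebra.norm ℚ x| : ℚ) : ℝ) : ℂ) ^ (-s) := by
    have h4 : ∫ y, g y = ∏ v : InfinitePlace K, ∫ y, f v y :=
      integral_fintype_prod_volume_eq_prod f
    rw [h4]
    have h5 : ∀ v : InfinitePlace K, ∫ y, f v y =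
        (if IsReal v then Gammaℝ s else 2⁻¹ * Gammaℂ s) * (((v x) ^ v.mult : ℝ) : ℂ) ^ (-s) := by
      intro v
      rw [← local_factor K v (v x) (hvx v) s]
      exact (h2 (v.mult : ℝ) (v x) s (hm v) (hvx v) hs).2
    simp_rw [h5]
    rw [Finset.prod_mul_distrib]
    congr 1
    · rw [Finset.prod_ite, Finset.prod_const, Finset.prod_const, gK, mul_pow]
      have h6 : (Finset.univ.filter (fun v : InfinitePlace K => IsReal v)).card =
          nrRealPlaces K := by
        rw [nrRealPlaces, Fintype.card_subtype]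
      have h7 : (Finset.univ.filter (fun v : InfinitePlace K => ¬ IsReal v)).card =
          nrComplexPlaces K := by
        rw [nrComplexPlaces, Fintype.card_subtype]
        congr 1
        ext v
        simp [not_isReal_iff_isComplex]
      rw [h6, h7, inv_pow]
      ring
    · rw [← prod_cpow_of_pos Finset.univ (fun v : InfinitePlace K => (v x) ^ v.mult)
        (fun v _ => by positivity)]
      rw [InfinitePlace.prod_eq_abs_norm]
  have hfun : (fun p : ℝ × logSpace K => g (yc K p.1 p.2)) = (fun p : ℝ × logSpace K =>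
      (Real.exp (-Real.pi * qK K (yc K p.1 p.2) x) : ℂ) * cexp (s * p.1)) := by
    funext p
    simp only [g, f]
    rw [Finset.prod_mul_distrib]
    congr 1
    · rw [← Complex.ofReal_prod, ← Real.exp_sum]
      congr 2
      rw [qK, Finset.mul_sum]
      refine Finset.sum_congr rfl fun v _ => ?_
      ring
    · rw [← Complex.exp_sum]
      congr 1
      have h8 := hy p.1 p.2
      have h9 : ((∑ v, (v.mult : ℝ) * yc K p.1 p.2 v : ℝ) : ℂ) = ((2 * p.1 : ℝ) : ℂ) := by
        rw [h8]
      push_cast at h9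
      have h10 : ∑ v : InfinitePlace K, s * ((v.mult : ℝ) : ℂ) * ((yc K p.1 p.2 v : ℝ) : ℂ) / 2 =
          s / 2 * ∑ v : InfinitePlace K, ((v.mult : ℝ) : ℂ) * ((yc K p.1 p.2 v : ℝ) : ℂ) := by
        rw [Finset.mul_sum]
        refine Finset.sum_congr rfl fun v _ => ?_
        ring
      rw [h10]
      push_cast
      rw [h9]
      ring
  obtain ⟨h11, h12⟩ := h1 K g hgi
  rw [hfun] at h11
  refine ⟨h11, ?_⟩
  have h13 : ∫ p : ℝ × logSpace K,
      (Real.exp (-Real.pi * qK K (yc K p.1 p.2) x) : ℂ) * cexp (s * p.1) =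
      ∫ p : ℝ × logSpace K, g (yc K p.1 p.2) := by rw [hfun]
  rw [h13, h12, hgv, pow_add, mul_inv]
  ring

end Pool.Agent.H41.HK
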