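import Pool.Agent.H25.HK.Targets

set_option autoImplicit false

open NumberField NumberField.InfinitePlace NumberField.Units
  NumberField.Units.dirichletUnitTheorem MeasureTheory Set Filter Complex
open scoped nonZeroDivisors ENNReal

namespace Pool.Agent.H41.HK

open Pool.Agent.H25.HK

section

variable (K : Type) [Field K] [NumberField K]

open scoped Classical in
/-- the sum over the places different from `w₀` -/
noncomputable def sf : Module.Dual ℝ (InfinitePlace K → ℝ) :=
  ∑ w : {w : InfinitePlace K // w ≠ w₀}, LinearMap.proj w.1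

open scoped Classical in
/-- the vector of the second shear -/
noncomputable def bv : InfinitePlace K → ℝ := fun v =>
  if v = w₀ then 0 else (v.mult : ℝ) / Module.finrank ℚ K

/-- the diagonal map -/
noncomputable def dg : (InfinitePlace K → ℝ) →ₗ[ℝ] (InfinitePlace K → ℝ) :=
  LinearMap.pi (fun v => ((2 / (v.mult : ℝ)) • (LinearMap.id : ℝ →ₗ[ℝ] ℝ)).comp
    (LinearMap.proj v))

open scoped Classical in
/-- the composed map -/
noncomputable def tm : (InfinitePlace K → ℝ) →ₗ[ℝ] (InfinitePlace K → ℝ) :=
  (dg K).comp ((LinearMap.transvection (-sf K) (Pi.single w₀ 1)).comp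
    (LinearMap.transvection (LinearMap.proj w₀) (bv K)))

open scoped Classical in
theorem sf_apply (x : InfinitePlace K → ℝ) :
    sf K x = ∑ w : {w : InfinitePlace K // w ≠ w₀}, x w.1 := by
  simp [sf]

open scoped Classical in
theorem tm_apply (y : InfinitePlace K → ℝ) : tm K y = yc K (y w₀) (fun v => y v.1) := by
  have hsum : ∑ w : {w : InfinitePlace K // w ≠ w₀}, ((w.1.mult : ℝ)) =
      Module.finrank ℚ K - ((w₀ : InfinitePlace K).mult : ℝ) := by
    have h1 : ∑ w : InfinitePlace K, (mult w : ℝ) = Module.finrank ℚ K := by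
      exact_mod_cast congrArg (Nat.cast (R := ℝ)) (sum_mult_eq (K := K))
    rw [Fintype.sum_eq_add_sum_subtype_ne _ (w₀ : InfinitePlace K)] at h1
    linarith
  have hn : (Module.finrank ℚ K : ℝ) ≠ 0 := by
    have := Module.finrank_pos (R := ℚ) (M := K)
    positivity
  have hm : ∀ v : InfinitePlace K, (v.mult : ℝ) ≠ 0 := fun v => by
    have := v.mult_pos
    positivity
  ext v
  simp only [tm, dg, LinearMap.comp_apply, LinearMap.pi_apply, LinearMap.smul_apply,
    LinearMap.id_apply, LinearMap.proj_apply, LinearMap.transvection.apply, smul_eq_mul,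
    LinearMap.neg_apply, Pi.add_apply, Pi.smul_apply, sf_apply]
  by_cases hv : v = w₀
  · subst hv
    simp only [yc, bv, Pi.single_eq_same, dif_pos, if_true]
    have h2 : ∑ w : {w : InfinitePlace K // w ≠ w₀},
        (y w.1 + y w₀ * (if w.1 = w₀ then 0 else (w.1.mult : ℝ) / Module.finrank ℚ K)) =
        (∑ w : {w : InfinitePlace K // w ≠ w₀}, y w.1) +
          y w₀ * ((Module.finrank ℚ K - ((w₀ : InfinitePlace K).mult : ℝ)) /
            Module.finrank ℚ K) := by
      rw [Finset.sum_add_distrib, ← hsum, Finset.sum_div, Finset.mul_sum]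
      congr 1
      refine Finset.sum_congr rfl fun w _ => ?_
      rw [if_neg w.2]
    rw [h2]
    have h3 := hm (w₀ : InfinitePlace K)
    field_simp
    ring
  · simp only [yc, bv, dif_neg hv, if_neg hv, Pi.single_eq_of_ne hv]
    have h3 := hm v
    field_simp
    ring

theorem prod_two_div_mult :
    ∏ v : InfinitePlace K, (2 / (v.mult : ℝ)) = 2 ^ nrRealPlaces K := by
  classical
  have h1 : ∀ v : InfinitePlace K, (2 / (v.mult : ℝ)) = if IsReal v then 2 else 1 := by
    intro v
    unfold mult
    split_ifs <;> norm_num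
  simp_rw [h1]
  rw [Finset.prod_ite, Finset.prod_const, Finset.prod_const_one, mul_one, nrRealPlaces,
    Fintype.card_subtype]

theorem det_tm : LinearMap.det (tm K) = 2 ^ nrRealPlaces K := by
  classical
  have h1 : LinearMap.det (dg K) = 2 ^ nrRealPlaces K := by
    rw [dg, LinearMap.det_pi, ← prod_two_div_mult]
    refine Finset.prod_congr rfl fun v _ => ?_
    rw [LinearMap.det_ring]
    simp
  rw [tm, LinearMap.det_comp, LinearMap.det_comp, LinearMap.transvection.det,
    LinearMap.transvection.det, h1]
  have h2 : sf K (Pi.single w₀ 1) = 0 := by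
    rw [sf_apply]
    refine Finset.sum_eq_zero fun w _ => ?_
    exact Pi.single_eq_of_ne w.2 _
  have h3 : bv K w₀ = 0 := by simp [bv]
  simp [h2, h3]

open scoped Classical in
/-- the coordinates `(y w₀, (y v)_{v ≠ w₀})` -/
noncomputable def eq₀ : (InfinitePlace K → ℝ) ≃ᵐ ℝ × logSpace K :=
  (MeasurableEquiv.piEquivPiSubtypeProd (fun _ : InfinitePlace K => ℝ) (fun v => v = w₀)).trans
    (MeasurableEquiv.prodCongr (MeasurableEquiv.funUnique _ ℝ) (MeasurableEquiv.refl _))

theorem mp_funUnique {α : Type} [Unique α] (i : Fintype α) :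
    MeasurePreserving (MeasurableEquiv.funUnique α ℝ)
      (@volume (α → ℝ) (@MeasureSpace.pi α i (fun _ => ℝ) _)) volume := by
  have h : i = Unique.fintype := Subsingleton.elim _ _
  subst h
  exact volume_preserving_funUnique α ℝ

open scoped Classical in
theorem eq₀_mp : MeasurePreserving (eq₀ K) volume volume := by
  unfold eq₀
  refine MeasurePreserving.trans
    (volume_preserving_piEquivPiSubtypeProd (fun _ : InfinitePlace K => ℝ) (fun v => v = w₀)) ?_
  exact (mp_funUnique (α := {v : InfinitePlace K // v = w₀}) _).prod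
    (MeasurePreserving.id (volume : Measure ({v : InfinitePlace K // ¬ v = w₀} → ℝ)))

end

open scoped Classical in
/-- (JA) the change of variables. -/
theorem ja : T_JA := by
  intro K _ _ g hg
  have hdet := det_tm K
  have hdet0 : LinearMap.det (tm K) ≠ 0 := by
    rw [hdet]; positivity
  have hmap := Measure.map_linearMap_addHaar_eq_smul_addHaar
    (volume : Measure (InfinitePlace K → ℝ)) hdet0
  rw [hdet] at hmap
  have hc : Continuous (tm K) := LinearMap.continuous_of_finiteDimensional _
  have hg' : Integrable g (Measure.map (tm K) volume) := by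
    rw [hmap]
    exact hg.smul_measure ENNReal.ofReal_ne_top
  have hint1 : Integrable (fun y => g (tm K y)) :=
    (integrable_map_measure hg'.aestronglyMeasurable hc.measurable.aemeasurable).mp hg'
  have hval1 : ∫ y, g (tm K y) = ((2 : ℂ) ^ nrRealPlaces K)⁻¹ * ∫ y, g y := by
    rw [← integral_map hc.measurable.aemeasurable hg'.aestronglyMeasurable, hmap,
      integral_smul_measure, ENNReal.toReal_ofReal (abs_nonneg _), abs_of_pos (by positivity),
      Complex.real_smul]
    push_cast
    rfl
  have hfun : (fun y => g (tm K y)) =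
      (fun p : ℝ × logSpace K => g (yc K p.1 p.2)) ∘ (eq₀ K) := by
    funext y
    rw [tm_apply]
    rfl
  rw [hfun] at hint1
  refine ⟨((eq₀_mp K).integrable_comp_emb (eq₀ K).measurableEmbedding).mp hint1, ?_⟩
  rw [← (eq₀_mp K).integral_comp (eq₀ K).measurableEmbedding, ← hval1]
  congr 1
  exact hfun.symm

end Pool.Agent.H41.HK
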