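import Pool.Agent.H25.HK.Targets

set_option autoImplicit false

open NumberField NumberField.InfinitePlace NumberField.Units
  NumberField.Units.dirichletUnitTheorem MeasureTheory Set Filter Complex
open scoped nonZeroDivisors ENNReal

namespace Pool.Agent.H41.HK

open Pool.Agent.H25.HK

/-- multiplying by a unit does not change the principal fractional ideal -/
theorem span_unit (K : Type) [Field K] [NumberField K] (u : (𝓞 K)ˣ) (x : K) :
    FractionalIdeal.spanSingleton (𝓞 K)⁰ ((u : K) * x) =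
      FractionalIdeal.spanSingleton (𝓞 K)⁰ x := by
  apply le_antisymm
  · rw [FractionalIdeal.spanSingleton_le_iff_mem, FractionalIdeal.mem_spanSingleton]
    exact ⟨(u : 𝓞 K), by rw [Algebra.smul_def]⟩
  · rw [FractionalIdeal.spanSingleton_le_iff_mem, FractionalIdeal.mem_spanSingleton]
    refine ⟨((u⁻¹ : (𝓞 K)ˣ) : 𝓞 K), ?_⟩
    rw [Algebra.smul_def, ← mul_assoc]
    have : algebraMap (𝓞 K) K ((u⁻¹ : (𝓞 K)ˣ) : 𝓞 K) * (u : K) = 1 := by
      rw [← map_mul, Units.inv_mul, map_one]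
    rw [this, one_mul]

/-- (BI) the nonzero elements of a fractional ideal. -/
theorem bi : T_BI := by
  intro K _ _ M hM
  have hp : ∀ I : {I : Ideal (𝓞 K) // Pri K M I}, ∃ x : K,
      ((I.1 : Ideal (𝓞 K)) : FI K) * M = FractionalIdeal.spanSingleton (𝓞 K)⁰ x :=
    fun I => I.2.2
  choose X hX using hp
  have hX0 : ∀ I, X I ≠ 0 := by
    intro I h0
    have h1 := hX I
    rw [h0, FractionalIdeal.spanSingleton_zero, mul_eq_zero] at h1
    rcases h1 with h1 | h1
    · exact I.2.1 (by simpa using h1)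
    · exact hM h1
  have hmem : ∀ I (u : (𝓞 K)ˣ), (u : K) * X I ∈ M := by
    intro I u
    have h1 : X I ∈ M := by
      have h2 : X I ∈ FractionalIdeal.spanSingleton (𝓞 K)⁰ (X I) :=
        FractionalIdeal.mem_spanSingleton_self _ _
      rw [← hX I] at h2
      have h3 : ((I.1 : Ideal (𝓞 K)) : FI K) * M ≤ 1 * M :=
        mul_le_mul_left FractionalIdeal.coeIdeal_le_one M
      rw [one_mul] at h3
      exact h3 h2
    have h4 := (M : Submodule (𝓞 K) K).smul_mem (u : 𝓞 K) h1
    rw [Algebra.smul_def] at h4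
    exact h4
  refine ⟨X, fun I => ⟨hX0 I, ?_⟩, hmem, ?_⟩
  · have h1 : FractionalIdeal.absNorm (((I.1 : Ideal (𝓞 K)) : FI K) * M) =
        |(Algebra.norm ℚ (X I))| := by
      rw [hX I, FractionalIdeal.absNorm_span_singleton]
    rw [map_mul, FractionalIdeal.coeIdeal_absNorm] at h1
    rw [← h1]
    push_cast
    rfl
  · intro x hx hx0
    have hle : FractionalIdeal.spanSingleton (𝓞 K)⁰ x * M⁻¹ ≤ 1 := by
      have h1 : FractionalIdeal.spanSingleton (𝓞 K)⁰ x ≤ M :=
        FractionalIdeal.spanSingleton_le_iff_mem.mpr hx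
      calc FractionalIdeal.spanSingleton (𝓞 K)⁰ x * M⁻¹ ≤ M * M⁻¹ := mul_le_mul_left h1 _
        _ = 1 := mul_inv_cancel₀ hM
    obtain ⟨I, hI⟩ := FractionalIdeal.le_one_iff_exists_coeIdeal.mp hle
    have hIM : (I : FI K) * M = FractionalIdeal.spanSingleton (𝓞 K)⁰ x := by
      rw [hI, mul_assoc, inv_mul_cancel₀ hM, mul_one]
    have hIbot : I ≠ ⊥ := by
      rintro rfl
      rw [FractionalIdeal.coeIdeal_bot, zero_mul] at hIM
      exact hx0 (FractionalIdeal.spanSingleton_eq_zero_iff.mp hIM.symm)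
    have hPri : Pri K M I := ⟨hIbot, x, hIM⟩
    have heq : FractionalIdeal.spanSingleton (𝓞 K)⁰ (X ⟨I, hPri⟩) =
        FractionalIdeal.spanSingleton (𝓞 K)⁰ x := by
      rw [← hX ⟨I, hPri⟩, hIM]
    obtain ⟨z, hz⟩ : ∃ z : 𝓞 K, z • X ⟨I, hPri⟩ = x := by
      rw [← FractionalIdeal.mem_spanSingleton (𝓞 K)⁰, heq]
      exact FractionalIdeal.mem_spanSingleton_self _ _
    obtain ⟨w, hw⟩ : ∃ w : 𝓞 K, w • x = X ⟨I, hPri⟩ := by
      rw [← FractionalIdeal.mem_spanSingleton (𝓞 K)⁰, ← heq]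
      exact FractionalIdeal.mem_spanSingleton_self _ _
    have hzw : z * w = 1 := by
      have h1 : (z * w) • x = (1 : 𝓞 K) • x := by
        rw [mul_smul, hw, hz, one_smul]
      rw [Algebra.smul_def, Algebra.smul_def] at h1
      have h2 := mul_right_cancel₀ hx0 h1
      exact FaithfulSMul.algebraMap_injective (𝓞 K) K h2
    let u : (𝓞 K)ˣ := Units.mkOfMulEqOne z w hzw
    have hu : (u : 𝓞 K) = z := rfl
    refine ⟨⟨⟨I, hPri⟩, u⟩, ?_, ?_⟩
    · change x = algebraMap (𝓞 K) K (u : 𝓞 K) * X ⟨I, hPri⟩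
      rw [hu, ← Algebra.smul_def, hz]
    · rintro ⟨⟨J, hJ⟩, v⟩ hv
      change x = (v : K) * X ⟨J, hJ⟩ at hv
      have hJI : J = I := by
        have h1 : (J : FI K) * M = (I : FI K) * M := by
          have h2 := hX ⟨J, hJ⟩
          change (J : FI K) * M = _ at h2
          rw [hIM, h2, hv, span_unit]
        have h3 := mul_right_cancel₀ hM h1
        exact FractionalIdeal.coeIdeal_injective h3
      subst hJI
      have h4 : (v : K) = (u : K) := by
        have h5 : (v : K) * X ⟨J, hJ⟩ = (u : K) * X ⟨J, hJ⟩ := by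
          rw [← hv]
          change x = algebraMap (𝓞 K) K (u : 𝓞 K) * X ⟨J, hPri⟩
          rw [hu, ← Algebra.smul_def, hz]
        exact mul_right_cancel₀ (hX0 _) h5
      have h6 : v = u := by
        apply Units.ext
        exact FaithfulSMul.algebraMap_injective (𝓞 K) K h4
      rw [h6]

end Pool.Agent.H41.HK
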