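import Pool.Agent.H25.HK.Targets

set_option autoImplicit false

open NumberField NumberField.InfinitePlace NumberField.Units
  NumberField.Units.dirichletUnitTheorem MeasureTheory Set Filter Complex
open scoped nonZeroDivisors ENNReal

namespace Pool.Agent.H41.HK

open Pool.Agent.H25.HK

/-- (UN) sums over units. -/
theorem un : T_UN := by
  intro K _ _ h
  let φ : (𝓞 K)ˣ → unitLattice K := fun u =>
    ⟨logEmbedding K (Additive.ofMul u), Submodule.mem_map_of_mem trivial⟩
  have key : ∀ l : unitLattice K, ∃ e : {u : (𝓞 K)ˣ // φ u = l} ≃ torsion K, True := by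
    rintro ⟨l, hl⟩
    obtain ⟨u0, _, hu0⟩ := hl
    obtain ⟨u0, rfl⟩ : ∃ u1 : (𝓞 K)ˣ, Additive.ofMul u1 = u0 := ⟨u0.toMul, rfl⟩
    have hu0' : logEmbedding K (Additive.ofMul u0) = l := hu0
    refine ⟨⟨fun u => ⟨u0⁻¹ * u.1, ?_⟩, fun t => ⟨u0 * t.1, ?_⟩, ?_, ?_⟩, trivial⟩
    · rw [← logEmbedding_eq_zero_iff]
      have h1 : logEmbedding K (Additive.ofMul u.1) = l := by
        have := u.2
        exact congrArg Subtype.val this
      rw [ofMul_mul, ofMul_inv, map_add, map_neg, h1, hu0']
      simp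
    · apply Subtype.ext
      change logEmbedding K (Additive.ofMul (u0 * t.1)) = l
      have h2 : logEmbedding K (Additive.ofMul t.1) = 0 := by
        rw [logEmbedding_eq_zero_iff]
        exact t.2
      rw [ofMul_mul, map_add, h2, hu0', add_zero]
    · intro u
      simp
    · intro t
      simp
  choose e _ using key
  calc ∑' u : (𝓞 K)ˣ, h (logEmbedding K (Additive.ofMul u))
      = ∑' u : (𝓞 K)ˣ, h (φ u) := rfl
    _ = ∑' p : (Σ l : unitLattice K, {u : (𝓞 K)ˣ // φ u = l}), h (φ p.2.1) :=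
        ((Equiv.sigmaFiberEquiv φ).tsum_eq (fun u => h (φ u))).symm
    _ = ∑' l : unitLattice K, ∑' u : {u : (𝓞 K)ˣ // φ u = l}, h (φ u.1) :=
        ENNReal.tsum_sigma' _
    _ = ∑' l : unitLattice K, (torsionOrder K : ℝ≥0∞) * h l := by
        refine tsum_congr fun l => ?_
        have h1 : ∀ u : {u : (𝓞 K)ˣ // φ u = l}, h (φ u.1) = h l := fun u => by
          rw [u.2]
        simp_rw [h1]
        haveI : Fintype (torsion K) := Fintype.ofFinite _
        rw [← (e l).symm.tsum_eq (fun _ => h l)]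
        rw [tsum_fintype]
        simp only [Finset.sum_const, nsmul_eq_mul]
        congr 1
        rw [torsionOrder, Nat.card_eq_fintype_card, Finset.card_univ]
    _ = (torsionOrder K : ℝ≥0∞) * ∑' l : unitLattice K, h l := ENNReal.tsum_mul_left

end Pool.Agent.H41.HK
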