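import Pool.Agent.H96.HK.TargetsN
import Pool.Agent.H96.HK.Basic

/-!
# MP_e94f6f_an, module CPL: the product is complete
-/

open MeasureTheory Set Filter Topology
open scoped ContDiff

namespace Pool.Agent.H41.HK

open Pool.Agent.H96.HK

/-- the last `n` coordinates -/
noncomputable def zp {n : ℕ} (x : E (n + 2)) : E n :=
  WithLp.toLp 2 (fun i : Fin n => x i.succ.succ)

lemma zz_eq {n : ℕ} (x y : E (n + 2)) : zz x y = dist (zp x) (zp y) ^ 2 := by
  rw [EuclideanSpace.dist_eq, Real.sq_sqrt (Finset.sum_nonneg fun i _ => sq_nonneg _)]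
  unfold zz zp
  refine Finset.sum_congr rfl fun i _ => ?_
  rw [Real.dist_eq, sq_abs]

lemma exists_rep (p : X) : ∃ k : ℤ, (gk k p).2 ∈ Icc (0 : ℝ) (Real.pi / 2) := by
  have hpi : (0 : ℝ) < Real.pi / 2 := by positivity
  refine ⟨-⌊p.2 / (Real.pi / 2)⌋, ?_⟩
  have h1 := Int.floor_le (p.2 / (Real.pi / 2))
  have h2 := Int.lt_floor_add_one (p.2 / (Real.pi / 2))
  rw [le_div_iff₀ hpi] at h1
  rw [div_lt_iff₀ hpi] at h2
  rw [gk_snd]
  push_cast
  constructor <;> nlinarith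

/-- the point with given first two and last `n` coordinates -/
noncomputable def mk2 {n : ℕ} (p : X) (z : E n) : E (n + 2) :=
  WithLp.toLp 2 (Fin.cons p.1 (Fin.cons p.2 (fun i => z i)) : Fin (n + 2) → ℝ)

lemma pX_mk2 {n : ℕ} (p : X) (z : E n) : pX (mk2 p z) = p := by
  unfold pX mk2
  ext
  · simp
  · show (Fin.cons p.1 (Fin.cons p.2 (fun i => z i)) : Fin (n + 2) → ℝ) 1 = p.2
    rw [show (1 : Fin (n + 2)) = Fin.succ 0 from rfl, Fin.cons_succ, Fin.cons_zero]

lemma zp_mk2 {n : ℕ} (p : X) (z : E n) : zp (mk2 p z) = z := by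
  unfold zp mk2
  ext i
  simp

theorem cpl (hDIS : T_DIS) (hDQ : T_DQ) (hDD : T_DD) : T_CPL := by
  intro F hF n u hu
  have hq := hDQ F hF
  have hd := hDD F hF
  have hD : ∀ x y : E (n + 2), dM (gF F n) (Gam n) x y =
      √(dq F (pX x) (pX y) ^ 2 + dist (zp x) (zp y) ^ 2) := by
    intro x y; rw [hDIS F hF n x y, zz_eq]
  have hle1 : ∀ x y : E (n + 2), dq F (pX x) (pX y) ≤ dM (gF F n) (Gam n) x y := by
    intro x y; rw [hD]
    exact Real.le_sqrt_of_sq_le (by nlinarith [sq_nonneg (dist (zp x) (zp y))])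
  have hle2 : ∀ x y : E (n + 2), dist (zp x) (zp y) ≤ dM (gF F n) (Gam n) x y := by
    intro x y; rw [hD]
    exact Real.le_sqrt_of_sq_le (by nlinarith [sq_nonneg (dq F (pX x) (pX y))])
  -- the last coordinates converge
  have hzc : CauchySeq (fun m => zp (u m)) := by
    rw [Metric.cauchySeq_iff]
    intro ε hε
    obtain ⟨N, hN⟩ := hu ε hε
    exact ⟨N, fun m hm k hk => (hle2 _ _).trans_lt (hN m hm k hk)⟩
  obtain ⟨z, hz⟩ := cauchySeq_tendsto_of_complete hzc
  -- representatives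
  choose k hk using exists_rep
  set v : ℕ → X := fun m => gk (k (pX (u m))) (pX (u m)) with hv
  obtain ⟨N, hN⟩ := hu 1 one_pos
  set C : ℝ := |(pX (u N)).1| + 1 with hC
  have hvK : ∀ m, v (N + m) ∈ Icc (-C) C ×ˢ Icc (0 : ℝ) (Real.pi / 2) := by
    intro m
    refine ⟨?_, hk _⟩
    have h1 := hq.lo (pX (u (N + m))) (pX (u N))
    have h2 := (hle1 (u (N + m)) (u N)).trans_lt (hN (N + m) (by omega) N le_rfl)
    have h3 : |(v (N + m)).1| ≤ C := by
      rw [hv]; simp only; rw [abs_gk_fst]; linarith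
    exact ⟨(abs_le.mp h3).1, (abs_le.mp h3).2⟩
  obtain ⟨p, -, φ, hφ, hlim⟩ := (isCompact_Icc.prod isCompact_Icc).tendsto_subseq hvK
  -- the subsequence converges for the distance of the quotient
  have hsub : Tendsto (fun j => dq F (pX (u (N + φ j))) p) atTop (𝓝 0) := by
    have h1 : Tendsto (fun j => |(v (N + φ j)).1 - p.1| +
        (1 + |(v (N + φ j)).1|) * |(v (N + φ j)).2 - p.2|) atTop (𝓝 0) := by
      have hc : Continuous (fun q : X => |q.1 - p.1| + (1 + |q.1|) * |q.2 - p.2|) := by fun_prop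
      have h2 := (hc.tendsto p).comp hlim
      have h3 : |p.1 - p.1| + (1 + |p.1|) * |p.2 - p.2| = 0 := by simp
      rw [h3] at h2
      exact h2
    refine squeeze_zero (fun j => hq.nn _ _) (fun j => ?_) h1
    calc dq F (pX (u (N + φ j))) p = dq F (v (N + φ j)) p := (hq.inv' _ _ _).symm
      _ ≤ dd F (v (N + φ j)) (gk 0 p) := hq.le _ _ 0
      _ = dd F (v (N + φ j)) p := by rw [gk_zero]
      _ ≤ _ := hd.le1 _ _
  -- the full sequence
  have hfull : Tendsto (fun m => dq F (pX (u m)) p) atTop (𝓝 0) := by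
    rw [Metric.tendsto_atTop]
    intro ε hε
    obtain ⟨N1, hN1⟩ := hu (ε / 2) (by positivity)
    rw [Metric.tendsto_atTop] at hsub
    obtain ⟨J, hJ⟩ := hsub (ε / 2) (by positivity)
    refine ⟨N1, fun m hm => ?_⟩
    have h1 := hJ (max J N1) (le_max_left _ _)
    rw [Real.dist_eq, sub_zero, abs_of_nonneg (hq.nn _ _)] at h1 ⊢
    have h2 : N1 ≤ N + φ (max J N1) :=
      (le_max_right J N1).trans ((hφ.id_le _).trans (Nat.le_add_left _ _))
    have h3 := (hle1 (u m) (u (N + φ (max J N1)))).trans_lt (hN1 m hm _ h2)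
    have h4 := hq.tri (pX (u m)) (pX (u (N + φ (max J N1)))) p
    linarith
  refine ⟨mk2 p z, ?_⟩
  have h5 : Tendsto (fun m => √(dq F (pX (u m)) p ^ 2 + dist (zp (u m)) z ^ 2)) atTop
      (𝓝 (√((0 : ℝ) ^ 2 + 0 ^ 2))) := by
    have h6 := tendsto_iff_dist_tendsto_zero.mp hz
    exact ((hfull.pow 2).add (h6.pow 2)).sqrt
  have h7 : (√((0 : ℝ) ^ 2 + 0 ^ 2)) = 0 := by simp
  rw [h7] at h5
  refine h5.congr fun m => ?_
  rw [hD, pX_mk2, zp_mk2]

end Pool.Agent.H41.HK
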