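import Pool.Agent.H96.HK.TargetsN
import Pool.Agent.H96.HK.Basic

/-!
# MP_e94f6f_an, module MNN: the product kernel is the smallest positive fundamental solution
-/

open MeasureTheory Set Filter Topology
open scoped ContDiff

namespace Pool.Agent.H41.HK

open Pool.Agent.H96.HK

lemma pd_sub {d : ℕ} (i : Fin d) {f g : E d → ℝ} (hf : Differentiable ℝ f)
    (hg : Differentiable ℝ g) : pd i (fun x => f x - g x) = fun x => pd i f x - pd i g x := by
  funext x
  unfold pd
  rw [fderiv_fun_sub (hf x) (hg x)]
  rfl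

lemma pd_sub_const {d : ℕ} (i : Fin d) (f : E d → ℝ) (c : ℝ) :
    pd i (fun x => f x - c) = pd i f := by
  funext x
  unfold pd
  rw [fderiv_sub_const]

lemma differentiable_pd {d : ℕ} (i : Fin d) {f : E d → ℝ} (hf : ContDiff ℝ 2 f) :
    Differentiable ℝ (pd i f) := by
  have h1 : ContDiff ℝ 1 (fderiv ℝ f) := hf.fderiv_right (m := 1) (by norm_num)
  have h2 : ContDiff ℝ 1 (fun x => fderiv ℝ f x (EuclideanSpace.single i 1)) :=
    h1.clm_apply contDiff_const
  exact h2.differentiable (by norm_num)

lemma lap_sub (hLAP : T_LAP) {F : ℝ → ℝ} (hF : Prof F) (n : ℕ) {f g : E (n + 2) → ℝ} (c : ℝ)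
    (hf : ContDiff ℝ 2 f) (hg : ContDiff ℝ 2 g) (x : E (n + 2)) :
    lap (gF F n) (fun x => f x - g x - c) x = lap (gF F n) f x - lap (gF F n) g x := by
  have hL := (hLAP F hF n).2
  have hfd : Differentiable ℝ f := hf.differentiable (by norm_num)
  have hgd : Differentiable ℝ g := hg.differentiable (by norm_num)
  have h1 : ∀ i, pd i (fun x => f x - g x - c) = fun x => pd i f x - pd i g x := by
    intro i
    rw [pd_sub_const i (fun x => f x - g x) c, pd_sub i hfd hgd]
  have h2 : ∀ i, pd i (pd i (fun x => f x - g x - c)) x = pd i (pd i f) x - pd i (pd i g) x := by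
    intro i
    rw [h1 i, pd_sub i (differentiable_pd i hf) (differentiable_pd i hg)]
  have hc2 : ContDiff ℝ 2 (fun x => f x - g x - c) := (hf.sub hg).sub contDiff_const
  rw [hL _ x hc2.contDiffAt, hL f x hf.contDiffAt, hL g x hg.contDiffAt, h2 0, h2 1, h1 0]
  simp only [h2, Finset.sum_sub_distrib]
  ring

/-- the cutoff function -/
noncomputable def chi {n : ℕ} (y x : E (n + 2)) : ℝ := max 0 (1 - 2 * ‖x - y‖)

lemma chi_nn {n : ℕ} (y x : E (n + 2)) : 0 ≤ chi y x := le_max_left _ _

lemma chi_le {n : ℕ} (y x : E (n + 2)) : chi y x ≤ 1 :=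
  max_le zero_le_one (by linarith [norm_nonneg (x - y)])

lemma chi_self {n : ℕ} (y : E (n + 2)) : chi y y = 1 := by simp [chi]

lemma chi_cont {n : ℕ} (y : E (n + 2)) : Continuous (chi y) := by
  unfold chi; fun_prop

lemma chi_ne {n : ℕ} {y x : E (n + 2)} (h : chi y x ≠ 0) : ‖x - y‖ < 1 / 2 := by
  by_contra hc
  push Not at hc
  exact h (max_eq_left (by linarith))

lemma chi_supp {n : ℕ} (y : E (n + 2)) : HasCompactSupport (chi y) := by
  refine HasCompactSupport.intro (isCompact_closedBall y (1 / 2)) fun x hx => ?_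
  by_contra hc
  refine hx ?_
  rw [Metric.mem_closedBall, dist_eq_norm]
  exact (chi_ne hc).le

lemma gam_one {n : ℕ} (hG : T_GAM) (k : ℤ) (x : E (n + 2)) :
    ((gam n ^ k) x) 1 = x 1 + k * (Real.pi / 2) := by
  have h := (hG n).1 k x
  exact congrArg Prod.snd h.1

/-- at most one translate of a point is in the support of `chi` -/
lemma chi_unique {n : ℕ} (hG : T_GAM) {y x : E (n + 2)} {j k : ℤ}
    (hj : chi y ((gam n ^ j) x) ≠ 0) (hk : chi y ((gam n ^ k) x) ≠ 0) : j = k := by
  have h1 : |((gam n ^ j) x - y) 1| < 1 / 2 :=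
    (PiLp.norm_apply_le _ (1 : Fin (n + 2))).trans_lt (chi_ne hj)
  have h2 : |((gam n ^ k) x - y) 1| < 1 / 2 :=
    (PiLp.norm_apply_le _ (1 : Fin (n + 2))).trans_lt (chi_ne hk)
  have e1 : ((gam n ^ j) x - y) 1 = x 1 + j * (Real.pi / 2) - y 1 := by
    rw [PiLp.sub_apply, gam_one hG]
  have e2 : ((gam n ^ k) x - y) 1 = x 1 + k * (Real.pi / 2) - y 1 := by
    rw [PiLp.sub_apply, gam_one hG]
  rw [e1] at h1
  rw [e2] at h2
  have h3 : |((j : ℝ) - k) * (Real.pi / 2)| < 1 := by
    have : ((j : ℝ) - k) * (Real.pi / 2) = (x 1 + j * (Real.pi / 2) - y 1) -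
        (x 1 + k * (Real.pi / 2) - y 1) := by ring
    rw [this]
    exact (abs_sub _ _).trans_lt (by linarith)
  have hpi : (1 : ℝ) < Real.pi / 2 := by linarith [Real.pi_gt_three]
  rw [abs_mul, abs_of_pos (show (0 : ℝ) < Real.pi / 2 by linarith)] at h3
  have h4 : |((j : ℝ) - k)| < 1 := by
    by_contra hc
    push Not at hc
    nlinarith
  have h5 : |j - k| < 1 := by exact_mod_cast h4
  have h6 := Int.abs_lt_one_iff.mp h5
  omega

theorem mnn (hAPN : T_APN) (hCMN : T_CMN) (hGAM : T_GAM) (hLAP : T_LAP) : T_MNN := by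
  intro F H hF hH n y u hu
  have hgmem : ∀ k : ℤ, gam n ^ k ∈ Gam n := fun k => ⟨k, rfl⟩
  -- the claim for positive delta
  have hA : ∀ δ > 0, ∀ τ > 0, ∀ x : E (n + 2),
      ∫ z : E (n + 2), Hn H τ x z * (chi y z * u δ z) * F (z 0) ≤ u (δ + τ) x := by
    intro δ hδ τ hτ x
    have hψc : Continuous (fun z => chi y z * u δ z) :=
      (chi_cont y).mul (hu.c2 δ hδ).continuous
    have hψs : HasCompactSupport (fun z => chi y z * u δ z) := (chi_supp y).mul_right
    refine le_of_forall_pos_le_add fun η hη => ?_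
    obtain ⟨U, hU, hU0, hUt⟩ := hAPN F H hF hH n _ hψc hψs τ hτ (η / 2) (by positivity)
    have hcomp := hCMN F hF n 0 τ (fun s x => U s x - u (δ + s) x - η / 2) hτ
      (by
        refine ContinuousOn.sub (ContinuousOn.sub ?_ ?_) continuousOn_const
        · exact hU.cont.mono (Set.prod_mono (fun s hs => hs.1) le_rfl)
        · have h1 : ContinuousOn (fun z : ℝ × E (n + 2) => ((δ + z.1, z.2) : ℝ × E (n + 2)))
              (Icc 0 τ ×ˢ univ) := by fun_prop
          exact hu.cont.comp h1 fun z hz => ⟨by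
            have := hz.1.1
            show (0 : ℝ) < δ + z.1
            linarith, trivial⟩)
      (by
        intro t ht x
        have h1 := hu.inv (δ + t) (by linarith [ht.1]) (gam n) (by simpa using hgmem 1) x
        have h2 := hU.inv t ht.1 x
        simp only [h1, h2])
      (by
        intro ε hε
        obtain ⟨R, hR⟩ := hU.dec τ hτ ε hε
        refine ⟨R, fun t ht x hx => ?_⟩
        have h1 := (le_abs_self _).trans (hR t ht x hx)
        have h2 := hu.pos (δ + t) (by linarith [ht.1]) x
        show U t x - u (δ + t) x - η / 2 ≤ ε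
        linarith)
      (by
        intro x
        simp only [add_zero]
        have h1 := (abs_le.mp (hU0 x)).2
        have h2 : ∑' k : ℤ, chi y ((gam n ^ k) x) * u δ ((gam n ^ k) x) ≤ u δ x := by
          by_cases hex : ∃ k : ℤ, chi y ((gam n ^ k) x) ≠ 0
          · obtain ⟨k, hk⟩ := hex
            rw [tsum_eq_single k]
            · rw [hu.inv δ hδ _ (hgmem k)]
              have h3 := hu.pos δ hδ x
              nlinarith [chi_le y ((gam n ^ k) x)]
            · intro j hj
              have : chi y ((gam n ^ j) x) = 0 := by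
                by_contra hc
                exact hj (chi_unique hGAM hc hk)
              rw [this, zero_mul]
          · push Not at hex
            simp only [hex, zero_mul, tsum_zero]
            exact (hu.pos δ hδ x).le
        linarith)
      (by
        intro t ht x _
        have hUc := hU.c2 t ht.1
        have huc := hu.c2 (δ + t) (by linarith [ht.1])
        refine ⟨((hUc.sub huc).sub contDiff_const).contDiffAt,
          lap (gF F n) (U t) x - lap (gF F n) (u (δ + t)) x, ?_, ?_⟩
        · have h1 := hU.heat t ht.1 x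
          have h2 := hu.heat (δ + t) (by linarith [ht.1]) x
          have h3 : HasDerivAt (fun s => u (δ + s) x) (lap (gF F n) (u (δ + t)) x) t :=
            HasDerivAt.comp_const_add δ t h2
          exact (h1.sub h3).sub_const _
        · rw [lap_sub hLAP hF n (η / 2) hUc huc x])
    have h1 := hcomp τ ⟨hτ.le, le_rfl⟩ x
    have h2 := (abs_le.mp (hUt τ ⟨hτ, le_rfl⟩ x)).1
    linarith
  intro t ht x
  -- the test function
  have hHc : Continuous (fun z : E (n + 2) => Hn H t x z) := by
    unfold Hn
    refine Continuous.mul ?_ ?_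
    · have h1 : Continuous (fun z : E (n + 2) => ((t, pX x, pX z) : ℝ × X × X)) := by
        unfold pX; fun_prop
      exact hH.cont.comp_continuous h1 fun z => ⟨ht, trivial⟩
    · unfold En zz
      fun_prop
  have hinit := hu.init (fun z => Hn H t x z * chi y z) (hHc.mul (chi_cont y))
    (chi_supp y).mul_left
  have hsum : ∑' γ : Gam n, Hn H t x (γ.1 y) * chi y (γ.1 y) = Hn H t x y := by
    rw [(hGAM n).2.2 (fun z => Hn H t x z * chi y z) y, tsum_eq_single 0]
    · simp [chi_self]
    · intro k hk
      have : chi y ((gam n ^ k) y) = 0 := by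
        by_contra hc
        have h0 : chi y ((gam n ^ (0 : ℤ)) y) ≠ 0 := by simp [chi_self]
        exact hk (chi_unique hGAM hc h0)
      simp only [this, mul_zero]
  rw [hsum] at hinit
  have hlim : Tendsto (fun δ : ℝ => u (δ + t) x) (𝓝[>] 0) (𝓝 (u t x)) := by
    have h1 : ContinuousAt (fun δ : ℝ => u (δ + t) x) 0 := by
      have h2 : ContinuousAt (fun s => u s x) ((0 : ℝ) + t) := by
        rw [zero_add]; exact (hu.heat t ht x).continuousAt
      exact ContinuousAt.comp (f := fun δ : ℝ => δ + t) h2 (by fun_prop)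
    have h3 := h1.tendsto
    rw [zero_add] at h3
    exact h3.mono_left nhdsWithin_le_nhds
  refine le_of_tendsto_of_tendsto hinit hlim ?_
  filter_upwards [self_mem_nhdsWithin] with δ hδ
  refine le_trans (le_of_eq ?_) (hA δ hδ t ht x)
  refine integral_congr_ae (Eventually.of_forall fun z => ?_)
  simp only [(hLAP F hF n).1 z]
  ring

end Pool.Agent.H41.HK
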